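import Pool.Agent.H635.UT.Gen

/-!
# For a minimal uncountable order `L`, `L 2 ≤ L` and `2 L ≤ L` imply `L² ≤ L`
-/

set_option autoImplicit false

namespace Pool.Agent.H635.UT

open Set

variable {L : Type} [LinearOrder L]

/-- Only countably many points between `x` and `y`. -/
def Near (x y : L) : Prop := (Icc x y ∪ Icc y x).Countable

theorem near_refl (x : L) : Near x x := by
  unfold Near
  rw [Icc_self, union_self]
  exact countable_singleton x

theorem Near.symm {x y : L} (h : Near x y) : Near y x := by
  unfold Near at *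
  rwa [union_comm]

theorem Near.trans {x y z : L} (h : Near x y) (h' : Near y z) : Near x z := by
  unfold Near at *
  refine (h.union h').mono ?_
  intro w hw
  rcases le_total w y with h1 | h1
  · rcases hw with ⟨h2, h3⟩ | ⟨h2, h3⟩
    · exact Or.inl (Or.inl ⟨h2, h1⟩)
    · exact Or.inr (Or.inr ⟨h2, h1⟩)
  · rcases hw with ⟨h2, h3⟩ | ⟨h2, h3⟩
    · exact Or.inr (Or.inl ⟨h1, h3⟩)
    · exact Or.inl (Or.inr ⟨h1, h3⟩)

/-- The equivalence relation. -/
def nearSetoid (L : Type) [LinearOrder L] : Setoid L :=
  ⟨Near, near_refl, Near.symm, Near.trans⟩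

theorem class_countable (hLu : Uncountable L)
    (hmin : ∀ K : Set L, ¬ K.Countable → Nonempty (L ↪o K)) (q : (Fin 2 ×ₗ L) ↪o L) (x : L) :
    {y : L | Near x y}.Countable := by
  obtain ⟨z₀⟩ : Nonempty L := inferInstance
  have hup : {y : L | Near x y ∧ x ≤ y}.Countable := by
    by_contra hc
    obtain ⟨e⟩ := hmin _ hc
    have h1 := (e (q (toLex (1, z₀)))).2
    have h2 : (range fun y : L => (e (q (toLex (0, y)))).1).Countable := by
      refine h1.1.mono ?_
      rintro _ ⟨y, rfl⟩
      refine Or.inl ⟨(e (q (toLex (0, y)))).2.2, ?_⟩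
      exact (e.strictMono (q.strictMono (Prod.Lex.left _ _ (by decide)))).le
    have hinj : Function.Injective fun y : L => (e (q (toLex (0, y)))).1 := fun y y' h =>
      congrArg (fun z => (ofLex z).2) (q.injective (e.injective (Subtype.ext h)))
    have h3 : (Set.univ : Set L).Countable := by
      rw [← image_univ] at h2
      exact countable_of_injective_of_countable_image hinj.injOn h2
    exact not_countable_univ h3
  have hdown : {y : L | Near x y ∧ y ≤ x}.Countable := by
    by_contra hc
    obtain ⟨e⟩ := hmin _ hc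
    have h1 := (e (q (toLex (0, z₀)))).2
    have h2 : (range fun y : L => (e (q (toLex (1, y)))).1).Countable := by
      refine h1.1.mono ?_
      rintro _ ⟨y, rfl⟩
      refine Or.inr ⟨?_, (e (q (toLex (1, y)))).2.2⟩
      exact (e.strictMono (q.strictMono (Prod.Lex.left _ _ (by decide)))).le
    have hinj : Function.Injective fun y : L => (e (q (toLex (1, y)))).1 := fun y y' h =>
      congrArg (fun z => (ofLex z).2) (q.injective (e.injective (Subtype.ext h)))
    have h3 : (Set.univ : Set L).Countable := by
      rw [← image_univ] at h2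
      exact countable_of_injective_of_countable_image hinj.injOn h2
    exact not_countable_univ h3
  refine (hup.union hdown).mono fun y hy => ?_
  rcases le_total x y with h | h
  · exact Or.inl ⟨hy, h⟩
  · exact Or.inr ⟨hy, h⟩

theorem square_of_doubles (hLu : Uncountable L)
    (hmin : ∀ K : Set L, ¬ K.Countable → Nonempty (L ↪o K)) (q : (Fin 2 ×ₗ L) ↪o L)
    (d : (L ×ₗ Fin 2) ↪o L) : Nonempty ((L ×ₗ L) ↪o L) := by
  let K : Set L := range (Quotient.out : Quotient (nearSetoid L) → L)
  have hKfar : ∀ x ∈ K, ∀ y ∈ K, Near x y → x = y := by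
    rintro _ ⟨a, rfl⟩ _ ⟨b, rfl⟩ h
    have h1 : a = b := by
      rw [← Quotient.out_eq a, ← Quotient.out_eq b]
      exact Quotient.sound h
    rw [h1]
  have hK : ¬ K.Countable := by
    intro hc
    have h1 : (Set.univ : Set L) ⊆ ⋃ x ∈ K, {y : L | Near x y} := by
      intro y _
      refine mem_biUnion (x := Quotient.out (Quotient.mk (nearSetoid L) y)) ⟨_, rfl⟩ ?_
      exact Quotient.mk_out (s := nearSetoid L) y
    exact not_countable_univ ((hc.biUnion fun x _ => class_countable hLu hmin q x).mono h1)
  obtain ⟨e⟩ := hmin K hK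
  let u : L → L := fun s => (e (d (toLex (s, 0)))).1
  let v : L → L := fun s => (e (d (toLex (s, 1)))).1
  have huv : ∀ s, u s < v s := fun s => e.strictMono (d.strictMono (Prod.Lex.right _ (by decide)))
  have hvu : ∀ s s', s < s' → v s < u s' := fun s s' h =>
    e.strictMono (d.strictMono (Prod.Lex.left _ _ h))
  have hunc : ∀ s, ¬ (Icc (u s) (v s)).Countable := by
    intro s hc
    have h1 : Near (u s) (v s) := by
      unfold Near
      rw [Icc_eq_empty (not_le.2 (huv s)), union_empty]
      exact hc
    exact (huv s).ne (hKfar _ (e _).2 _ (e _).2 h1)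
  have hg : ∀ s, Nonempty (L ↪o Icc (u s) (v s)) := fun s => hmin _ (hunc s)
  let g : ∀ s, L ↪o Icc (u s) (v s) := fun s => (hg s).some
  refine ⟨OrderEmbedding.ofStrictMono (fun z => (g (ofLex z).1 (ofLex z).2).1) ?_⟩
  rintro ⟨s, y⟩ ⟨s', y'⟩ h
  change (g s y).1 < (g s' y').1
  cases h with
  | left _ _ h =>
    exact (g s y).2.2.trans_lt ((hvu s s' h).trans_le (g s' y').2.1)
  | right _ h => exact (g s).strictMono h

end Pool.Agent.H635.UT
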