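import Pool.Agent.H635.UT.Unt

/-!
# The embedding property from minimality and `L² ≤ L`
-/

set_option autoImplicit false

namespace Pool.Agent.H635.UT

open Set Cardinal
open Pool.Agent.H635.Dia (W ρ ρ_lt_ρ ρ_le_ρ mk_W countable_Iio countable_Iic uncountable_W)

theorem exists_k {L : Type} (S : W → Set L) (hunc : ∀ γ, ¬ (S γ).Countable) :
    ∃ k : W → L, (∀ γ, k γ ∈ S γ) ∧ Function.Injective k := by
  classical
  have step : ∀ (γ : W) (rec : ∀ δ, δ < γ → L), ∃ x ∈ S γ, ∀ δ (h : δ < γ), x ≠ rec δ h := by
    intro γ rec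
    by_contra hc
    push Not at hc
    apply hunc γ
    have : Countable (Iio γ) := (countable_Iio γ).to_subtype
    refine (countable_range (fun d : Iio γ => rec d.1 d.2)).mono fun x hx => ?_
    obtain ⟨δ, h, hx⟩ := hc x hx
    exact ⟨⟨δ, h⟩, hx.symm⟩
  choose c hc1 hc2 using step
  let k : W → L := WellFounded.fix (wellFounded_lt : WellFounded ((· < ·) : W → W → Prop))
    (fun γ rec => c γ rec)
  have hk : ∀ γ, k γ = c γ (fun δ _ => k δ) := fun γ => WellFounded.fix_eq _ _ _
  have key : ∀ δ γ, δ < γ → k γ ≠ k δ := by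
    intro δ γ h
    rw [hk γ]
    exact hc2 γ (fun δ _ => k δ) δ h
  refine ⟨k, fun γ => ?_, fun γ δ h => ?_⟩
  · rw [hk]
    exact hc1 _ _
  · rcases lt_trichotomy γ δ with h1 | h1 | h1
    · exact absurd h.symm (key _ _ h1)
    · exact h1
    · exact absurd h (key _ _ h1)

variable {L : Type} [LinearOrder L]

theorem lmp_of_square (hLu : Uncountable L)
    (hmin : ∀ K : Set L, ¬ K.Countable → Nonempty (L ↪o K)) (q : (L ×ₗ L) ↪o L) : LMP L := by
  intro S hanti hunc β
  obtain ⟨k, hk, hkinj⟩ := exists_k S hunc
  have hK : ¬ (range k).Countable := by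
    intro h
    have h1 : (Set.univ : Set W).Countable := by
      rw [← image_univ] at h
      exact countable_of_injective_of_countable_image hkinj.injOn h
    exact not_countable_univ h1
  obtain ⟨F⟩ := hmin (range k) hK
  choose δ hδ using fun x : L => (F x).2
  have hδinj : Function.Injective δ := fun x y h =>
    F.injective (Subtype.ext (by rw [← hδ x, ← hδ y, h]))
  have hex : ∀ s, ∃ y, β s ≤ δ (q (toLex (s, y))) := by
    intro s
    by_contra h
    push Not at h
    have hinj : Function.Injective (fun y => δ (q (toLex (s, y)))) := by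
      intro y y' hy
      have h1 := q.injective (hδinj hy)
      exact congrArg (fun z => (ofLex z).2) h1
    have h2 : (Set.univ : Set L).Countable :=
      ((countable_Iio (β s)).preimage_of_injOn hinj.injOn).mono fun y _ => h y
    exact not_countable_univ h2
  choose y hy using hex
  refine ⟨fun s => (F (q (toLex (s, y s)))).1,
    fun s s' h => F.strictMono (q.strictMono (Prod.Lex.left _ _ h)), fun s => ?_⟩
  change (F (q (toLex (s, y s)))).1 ∈ S (β s)
  rw [← hδ]
  exact hanti _ _ (hy s) (hk _)

theorem mid_of_square (hLu : Uncountable L) (q : (L ×ₗ L) ↪o L) :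
    ∃ c : L, ¬ {s : L | s < c}.Countable ∧ ¬ {s : L | c < s}.Countable := by
  have hinf : (Set.univ : Set L).Infinite := Set.infinite_univ
  obtain ⟨T, _, hTc⟩ := hinf.exists_subset_card_eq 3
  let e := T.orderEmbOfFin hTc
  have h01 : e 0 < e 1 := e.strictMono (by decide)
  have h12 : e 1 < e 2 := e.strictMono (by decide)
  have key : ∀ s, ¬ (range fun y => q (toLex (s, y))).Countable := by
    intro s h
    have hinj : Function.Injective (fun y => q (toLex (s, y))) := fun y y' hy =>
      congrArg (fun z => (ofLex z).2) (q.injective hy)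
    have h1 : (Set.univ : Set L).Countable := by
      rw [← image_univ] at h
      exact countable_of_injective_of_countable_image hinj.injOn h
    exact not_countable_univ h1
  refine ⟨q (toLex (e 1, e 1)), fun h => key (e 0) (h.mono ?_), fun h => key (e 2) (h.mono ?_)⟩
  · rintro _ ⟨y, rfl⟩
    exact q.strictMono (Prod.Lex.left _ _ h01)
  · rintro _ ⟨y, rfl⟩
    exact q.strictMono (Prod.Lex.left _ _ h12)

end Pool.Agent.H635.UT
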