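import Pool.Agent.H635.DM.Far

/-!
# Embeddings of the line with prescribed targets
-/

set_option autoImplicit false

namespace Pool.Agent.H635.DM

open Ordinal Set
open Pool.Agent.H635.Dia (W ρ ρ_lt ρ_lt_ρ ρ_le_ρ ρ_inj exists_ρ mk_W countable_Iio countable_Iic
  exists_bound eq_zero_of_add_eq exists_lub Diamond eventually_const)
open Pool.Agent.H635.DR (Seq Word M mmul act act_zero sign_act act_eq_zero act_mmul act_one len cat
  sft ev sh len_append len_sh sh_append ev_append sft_eq_zero ev_sh Words Words_mono nil_mem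
  cons_mem append_mem sh_mem len_lt_opow len_lt countable_Words ev_congr IsB ev_ne_zero exists_trunc
  exists_first len_eq_opow Av Good len_replicate exists_good ext_le ev_ext lim lim_eq mk_Word
  exists_mem_Words exists_Words)

variable {b : W → Seq} [Blocks b]

/-- Given a decreasing family of uncountable sets and labels, there is an order embedding of the
line into itself with targets in the sets with the given labels. -/
theorem lm (hcap : Cap b) (S : W → Set (Ln b)) (hanti : ∀ γ γ', γ ≤ γ' → S γ' ⊆ S γ)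
    (hunc : ∀ γ, ¬ (S γ).Countable) (α : Ln b → W) :
    ∃ F : Ln b → Ln b, StrictMono F ∧ ∀ s, F s ∈ S (α s) := by
  obtain ⟨t, n₀, hv₀⟩ := hcap {w | ∀ γ, ∃ k ∈ S γ, Seg b w (ofLex k.1)} (by
      intro w hw w' hw' γ
      obtain ⟨k, hk, h1⟩ := hw γ
      exact ⟨k, hk, h1.down hw'⟩) (by
      intro x
      by_contra hcon
      push Not at hcon
      have h1 : ∀ f : W → ℤ, ∃ γ, ∀ w, len w = ρ x → E b w = f → ∀ k ∈ S γ,
          ¬ Seg b w (ofLex k.1) := by
        intro f
        by_cases h : ∃ w, len w = ρ x ∧ E b w = f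
        · obtain ⟨w, hw, hwf⟩ := h
          have h2 : w ∉ {w | ∀ γ, ∃ k ∈ S γ, Seg b w (ofLex k.1)} := fun h3 =>
            absurd (hcon w h3) (by rw [hw]; exact lt_irrefl _)
          simp only [Set.mem_ofPred_eq, not_forall, not_exists, not_and] at h2
          obtain ⟨γ, hγ⟩ := h2
          refine ⟨γ, fun w' hw' hwf' k hk hseg => hγ k hk ?_⟩
          obtain ⟨z, hz, hz2⟩ := hseg
          exact ⟨z, by rw [hw, ← hw']; exact hz, by rw [hwf, ← hwf']; exact hz2⟩
        · exact ⟨x, fun w hw hwf => absurd ⟨w, hw, hwf⟩ h⟩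
      choose γ hγ using h1
      obtain ⟨γs, hγs⟩ := exists_bound ((countable_Nd (b := b) x).image γ)
      have h2 : ∃ k ∈ S γs, ¬ ∀ y, x ≤ y → ofLex k.1 y = 0 := by
        by_contra hc
        push Not at hc
        apply hunc γs
        have h3 : MapsTo (fun k : Ln b => ofLex k.1) (S γs) {f | f ∈ Nd b ∧ ∀ y, x ≤ y → f y = 0} :=
          fun k hk => ⟨k.2, hc k hk⟩
        exact h3.countable_of_injOn (fun a _ b _ hab => Subtype.ext hab) (countable_Nd x)
      obtain ⟨k, hk, hk2⟩ := h2
      obtain ⟨w, hw, hw2⟩ := exists_seg k.2 hk2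
      obtain ⟨w', hw', hw3⟩ := exists_ini (b := b) hw2
      have h4 : E b w' ∈ {f | f ∈ Nd b ∧ ∀ y, x ≤ y → f y = 0} := by
        refine ⟨⟨w', rfl⟩, fun y hy => ?_⟩
        by_contra h5
        have h6 := (E_ne_zero (b := b) w' y).1 h5
        rw [hw'] at h6
        exact absurd (ρ_lt_ρ.1 h6) (not_lt.2 hy)
      exact hγ (E b w') w' hw' rfl k (hanti _ _ (hγs _ ⟨_, h4, rfl⟩).le hk) (hw.down hw3))
  obtain ⟨n, ε⟩ := n₀
  have hv : ∀ v, t ++ sh (n, 1) v ∈ {w | ∀ γ, ∃ k ∈ S γ, Seg b w (ofLex k.1)} := by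
    intro v
    have h1 := hv₀ (sh (0, ε) v)
    have h2 : mmul (n, ε) (0, ε) = (n, 1) := by
      unfold mmul
      simp only [add_zero, Int.units_mul_self]
    rwa [sh_sh, h2] at h1
  obtain ⟨a, ha⟩ := exists_ρ (Ordinal.omega_pos 1)
  have hF : ∀ f : Ln b, ∃ s : Word, E b s = ofLex f.1 ∧
      ∃ k ∈ S (α f), ∃ x, len (t ++ sh (n, 1) (Uw a s)) ≤ ρ x ∧
        E b (t ++ sh (n, 1) (Uw a s)) = tr x (ofLex k.1) := by
    intro f
    obtain ⟨s, hs⟩ := f.2
    obtain ⟨k, hk, h1⟩ := hv (Uw a s) (α f)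
    exact ⟨s, hs, k, hk, h1⟩
  choose s hs F hFS x hx hF using hF
  refine ⟨F, fun f g hfg => ?_, hFS⟩
  change Lt (ofLex (F f).1) (ofLex (F g).1)
  refine main_lt ha t n (hx f) (hF f) (hx g) (hF g) ?_
  rw [hs, hs]
  exact hfg

omit [Blocks b] in
/-- The size of the line. -/
theorem mk_Ln : Cardinal.mk (Ln b) ≤ Cardinal.mk W := by
  rw [← mk_Word]
  have h : ∀ f : Ln b, ∃ s : Word, E b s = ofLex f.1 := fun f => f.2
  choose s hs using h
  refine Cardinal.mk_le_of_injective (f := s) fun f g hfg => ?_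
  apply Subtype.ext
  have h1 : ofLex f.1 = ofLex g.1 := by rw [← hs f, ← hs g, hfg]
  exact h1

/-- There is a point with uncountably many points on both sides. -/
theorem exists_mid : ∃ c : Ln b, ¬ {s : Ln b | s < c}.Countable ∧ ¬ {s : Ln b | c < s}.Countable := by
  let c : Ln b := ⟨toLex (E b []), ⟨[], rfl⟩⟩
  have hc : negL c = c := by
    apply Subtype.ext
    change toLex (-(E b [])) = toLex (E b [])
    congr 1
  have hcc : ¬ ({s : Ln b | s < c} ∪ ({c} ∪ {s : Ln b | c < s})).Countable := by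
    intro h
    have h1 : (univ : Set (Ln b)) ⊆ {s : Ln b | s < c} ∪ ({c} ∪ {s : Ln b | c < s}) := by
      intro s _
      rcases lt_trichotomy s c with h2 | h2 | h2
      · exact Or.inl h2
      · exact Or.inr (Or.inl h2)
      · exact Or.inr (Or.inr h2)
    have : Uncountable (Ln b) := uncountable_Ln
    exact not_countable_univ (h.mono h1)
  have hlt1 : ∀ s : Ln b, c < s → negL s < c := by
    intro s hs
    have h := (negL_lt (f := c) (g := s)).2 hs
    rwa [hc] at h
  have hlt2 : ∀ s : Ln b, s < c → c < negL s := by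
    intro s hs
    have h := (negL_lt (f := s) (g := c)).2 hs
    rwa [hc] at h
  have hsymm : {s : Ln b | s < c}.Countable ↔ {s : Ln b | c < s}.Countable := by
    constructor
    · intro h
      refine (h.image negL).mono ?_
      intro s hs
      exact ⟨negL s, hlt1 s hs, negL_negL s⟩
    · intro h
      refine (h.image negL).mono ?_
      intro s hs
      exact ⟨negL s, hlt2 s hs, negL_negL s⟩
  refine ⟨c, fun h => hcc ?_, fun h => hcc ?_⟩
  · exact h.union ((countable_singleton c).union (hsymm.1 h))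
  · exact (hsymm.2 h).union ((countable_singleton c).union h)

end Pool.Agent.H635.DM
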