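import Pool.Agent.H635.UT.LM

/-!
# An untranscendable order

`L` is a linear order of size `ℵ₁` with labels in `W`; each point `s` of `L` is replaced by the
regular cardinal `kp (α s)`.
-/

set_option autoImplicit false

namespace Pool.Agent.H635.UT

open Set Cardinal
open Pool.Agent.H635.Dia (W ρ ρ_lt_ρ ρ_le_ρ mk_W countable_Iio countable_Iic uncountable_W)

/-- The cardinals. -/
noncomputable def kp (γ : W) : Cardinal.{0} := Cardinal.aleph (ρ γ + 1 + 1)

theorem kp_reg (γ : W) : (kp γ).IsRegular := Cardinal.isRegular_aleph_add_one _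

theorem kp_lt_kp {γ γ' : W} : kp γ < kp γ' ↔ γ < γ' := by
  unfold kp
  rw [Cardinal.aleph_lt_aleph, Order.lt_add_one_iff, Order.add_one_le_iff, Order.lt_add_one_iff,
    Order.add_one_le_iff, ρ_lt_ρ]

theorem kp_le_kp {γ γ' : W} : kp γ ≤ kp γ' ↔ γ ≤ γ' := by
  rw [← not_lt, kp_lt_kp, not_lt]

theorem mk_W_lt (γ : W) : Cardinal.mk W < kp γ := by
  rw [mk_W]
  unfold kp
  rw [Cardinal.aleph_lt_aleph]
  calc (1 : Ordinal.{0}) < 1 + 1 := by
        rw [one_add_one_eq_two]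
        exact one_lt_two
    _ ≤ ρ γ + 1 + 1 := add_le_add_left le_add_self 1

/-- The well-orders. -/
abbrev Pt (γ : W) : Type := (kp γ).ord.ToType

theorem mk_Pt (γ : W) : Cardinal.mk (Pt γ) = kp γ := Cardinal.mk_ord_toType _

/-- A well-order of size at least `κ` contains the initial ordinal of `κ`. -/
theorem we2 {κ : Cardinal.{0}} {D : Type} [LinearOrder D] [WellFoundedLT D]
    (h : κ ≤ Cardinal.mk D) : Nonempty (κ.ord.ToType ↪o D) := by
  have h1 : κ.ord ≤ Ordinal.type ((· < ·) : D → D → Prop) := by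
    rw [Cardinal.ord_le, Ordinal.card_type]
    exact h
  rw [← Ordinal.type_toType κ.ord, Ordinal.type_le_iff'] at h1
  obtain ⟨g⟩ := h1
  exact ⟨g.orderEmbeddingOfLTEmbedding⟩

/-- A well-order of size less than `κ` embeds in the initial ordinal of `κ`. -/
theorem we1 {κ : Cardinal.{0}} {D : Type} [LinearOrder D] [WellFoundedLT D]
    (h : Cardinal.mk D < κ) : Nonempty (D ↪o κ.ord.ToType) := by
  have h1 : Ordinal.type ((· < ·) : D → D → Prop) < κ.ord := by
    rw [Cardinal.lt_ord, Ordinal.card_type]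
    exact h
  have h2 := h1.le
  rw [← Ordinal.type_toType κ.ord, Ordinal.type_le_iff'] at h2
  obtain ⟨g⟩ := h2
  exact ⟨g.orderEmbeddingOfLTEmbedding⟩

/-- The pigeonhole principle for the cardinals `kp γ`. -/
theorem pigeon {γ : W} {A B : Type} (g : A → B) (hA : kp γ ≤ Cardinal.mk A)
    (hB : Cardinal.mk B < kp γ) : ∃ z, kp γ ≤ Cardinal.mk (g ⁻¹' {z}) := by
  apply Cardinal.infinite_pigeonhole_card g (kp γ) hA (kp_reg γ).aleph0_le
  rw [(kp_reg γ).cof_ord]
  exact hB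

variable {L : Type} [LinearOrder L] (α : L → W)

/-- The order. -/
abbrev XX : Type := Σₗ s : L, Pt (α s)

/-- The part of `C` over `s`. -/
def fib (C : Set (XX α)) (s : L) : Set (Pt (α s)) := {p | toLex ⟨s, p⟩ ∈ C}

/-- The embedding property of `L`. -/
def LMP (L : Type) [LinearOrder L] : Prop :=
  ∀ S : W → Set L, (∀ γ γ', γ ≤ γ' → S γ' ⊆ S γ) → (∀ γ, ¬ (S γ).Countable) → ∀ β : L → W,
    ∃ F : L → L, StrictMono F ∧ ∀ s, F s ∈ S (β s)

/-- The map between sums. -/
theorem emb_of {Y : Type} [LinearOrder Y] (f : ∀ s : L, Pt (α s) → Y)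
    (h1 : ∀ s, StrictMono (f s)) (h2 : ∀ s s' p p', s < s' → f s p < f s' p') :
    Nonempty (XX α ↪o Y) := by
  refine ⟨OrderEmbedding.ofStrictMono (fun x => f (ofLex x).1 (ofLex x).2) ?_⟩
  rintro ⟨s, p⟩ ⟨s', p'⟩ h
  change f s p < f s' p'
  cases h with
  | left _ _ h => exact h2 _ _ _ _ h
  | right _ _ h => exact h1 _ h

theorem lt_left {s s' : L} (p : Pt (α s)) (p' : Pt (α s')) (h : s < s') :
    (toLex ⟨s, p⟩ : XX α) < toLex ⟨s', p'⟩ := Sigma.Lex.left _ _ h

theorem lt_right {s : L} {p p' : Pt (α s)} (h : p < p') :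
    (toLex ⟨s, p⟩ : XX α) < toLex ⟨s, p'⟩ := Sigma.Lex.right _ _ h

variable {α}

/-- The positive criterion. -/
theorem pc (hL : LMP L) (C : Set (XX α))
    (hC : ∀ γ, ¬ {s : L | kp γ ≤ Cardinal.mk (fib α C s)}.Countable) : Nonempty (XX α ↪o C) := by
  obtain ⟨F, hF, hFS⟩ := hL (fun γ => {s : L | kp γ ≤ Cardinal.mk (fib α C s)})
    (fun γ γ' h s hs => (kp_le_kp.2 h).trans hs) hC α
  have hg : ∀ s, Nonempty (Pt (α s) ↪o fib α C (F s)) := fun s => we2 (hFS s)
  let g : ∀ s, Pt (α s) ↪o fib α C (F s) := fun s => (hg s).some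
  refine emb_of α (fun s p => ⟨toLex ⟨F s, (g s p).1⟩, (g s p).2⟩) (fun s p p' h => ?_)
    (fun s s' p p' h => ?_)
  · exact lt_right α ((g s).strictMono h)
  · exact lt_left α _ _ (hF h)

theorem pc_neg (hL : LMP L) (C : Set (XX α)) (hC : ¬ Nonempty (XX α ↪o C)) :
    ∃ γ, {s : L | kp γ ≤ Cardinal.mk (fib α C s)}.Countable := by
  by_contra h
  push Not at h
  exact hC (pc hL C h)

omit [LinearOrder L] in
theorem ex_snd (x : XX α) {r : L} (h : (ofLex x).1 = r) : ∃ q : Pt (α r), x = toLex ⟨r, q⟩ := by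
  rcases x with ⟨r', q⟩
  change r' = r at h
  subst h
  exact ⟨q, rfl⟩

omit [LinearOrder L] in
theorem fib_le (C : Set (XX α)) (s : L) : Cardinal.mk (fib α C s) ≤ kp (α s) := by
  rw [← mk_Pt]
  exact Cardinal.mk_set_le _

/-- `AB` for `A, B ⊆ X`. -/
theorem key (hα : Function.Injective α) {A B : Set (XX α)} (f : XX α ↪o (B ×ₗ A)) (s : L) :
    (∃ r, kp (α s) ≤ Cardinal.mk (fib α B r)) ∨ ∃ u, kp (α s) ≤ Cardinal.mk (fib α A u) := by
  have hLW : Cardinal.mk L < kp (α s) := (Cardinal.mk_le_of_injective hα).trans_lt (mk_W_lt _)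
  let φ : Pt (α s) → B × A := fun p => ofLex (f (toLex ⟨s, p⟩))
  have hφ : Function.Injective φ := by
    intro p p' h
    have h1 : f (toLex ⟨s, p⟩) = f (toLex ⟨s, p'⟩) := ofLex.injective h
    have h2 := f.injective h1
    rcases lt_trichotomy p p' with h3 | h3 | h3
    · exact absurd h2 (lt_right α h3).ne
    · exact h3
    · exact absurd h2 (lt_right α h3).ne'
  obtain ⟨r, hr⟩ := pigeon (γ := α s) (fun p => (ofLex (φ p).1.1).1) (mk_Pt _).ge hLW
  by_cases hB : kp (α s) ≤ Cardinal.mk (fib α B r)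
  · exact Or.inl ⟨r, hB⟩
  · right
    rw [not_le] at hB
    have hq : ∀ p : ((fun p => (ofLex (φ p).1.1).1) ⁻¹' {r} : Set (Pt (α s))),
        ∃ q : fib α B r, (φ p.1).1.1 = toLex ⟨r, q.1⟩ := by
      rintro ⟨p, hp⟩
      obtain ⟨q, hq⟩ := ex_snd (φ p).1.1 hp
      refine ⟨⟨q, ?_⟩, hq⟩
      change toLex ⟨r, q⟩ ∈ B
      rw [← hq]
      exact (φ p).1.2
    choose q hq using hq
    obtain ⟨z, hz⟩ := pigeon (γ := α s) q hr hB
    obtain ⟨u, hu⟩ := pigeon (γ := α s) (fun p : q ⁻¹' {z} => (ofLex (φ p.1.1).2.1).1) hz hLW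
    refine ⟨u, hu.trans ?_⟩
    have hw : ∀ p : ((fun p : q ⁻¹' {z} => (ofLex (φ p.1.1).2.1).1) ⁻¹' {u} : Set (q ⁻¹' {z})),
        ∃ w : fib α A u, (φ p.1.1.1).2.1 = toLex ⟨u, w.1⟩ := by
      rintro ⟨p, hp⟩
      obtain ⟨w, hw⟩ := ex_snd (φ p.1.1).2.1 hp
      refine ⟨⟨w, ?_⟩, hw⟩
      change toLex ⟨u, w⟩ ∈ A
      rw [← hw]
      exact (φ p.1.1).2.2
    choose w hw using hw
    refine Cardinal.mk_le_of_injective (f := w) fun p p' h => ?_
    apply Subtype.ext
    apply Subtype.ext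
    apply Subtype.ext
    apply hφ
    have h1 : q p.1.1 = z := p.1.2
    have h2 : q p'.1.1 = z := p'.1.2
    apply Prod.ext
    · apply Subtype.ext
      rw [hq p.1.1, hq p'.1.1, h1, h2]
    · apply Subtype.ext
      rw [hw p, hw p', h]

/-- `X` is untranscendable. -/
theorem untranscendable (hL : LMP L) (hLu : Uncountable L) (hα : Function.Injective α)
    {A B : Set (XX α)} (f : XX α ↪o (B ×ₗ A)) : Nonempty (XX α ↪o A) ∨ Nonempty (XX α ↪o B) := by
  by_contra hcon
  push Not at hcon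
  obtain ⟨hA, hB⟩ := hcon
  obtain ⟨γA, hγA⟩ := pc_neg hL A (by rwa [not_nonempty_iff])
  obtain ⟨γB, hγB⟩ := pc_neg hL B (by rwa [not_nonempty_iff])
  have hle : ∀ γ : W, {s : L | α s ≤ γ}.Countable := fun γ =>
    (countable_Iic γ).preimage_of_injOn hα.injOn
  have hcov : (univ : Set L) ⊆ {s : L | α s ≤ γA} ∪ ({s : L | α s ≤ γB} ∪
      ((⋃ z ∈ {s : L | kp γA ≤ Cardinal.mk (fib α A s)}, {s : L | α s ≤ α z}) ∪
        ⋃ z ∈ {s : L | kp γB ≤ Cardinal.mk (fib α B s)}, {s : L | α s ≤ α z})) := by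
    intro s _
    by_cases h1 : α s ≤ γA
    · exact Or.inl h1
    · by_cases h2 : α s ≤ γB
      · exact Or.inr (Or.inl h2)
      · right
        right
        rw [not_le] at h1 h2
        rcases key hα f s with ⟨r, hr⟩ | ⟨u, hu⟩
        · right
          refine mem_biUnion (x := r) ((kp_le_kp.2 h2.le).trans hr) ?_
          exact kp_le_kp.1 (hr.trans (fib_le B r))
        · left
          refine mem_biUnion (x := u) ((kp_le_kp.2 h1.le).trans hu) ?_
          exact kp_le_kp.1 (hu.trans (fib_le A u))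
  refine not_countable_univ (Set.Countable.mono hcov ?_)
  exact (hle _).union ((hle _).union ((hγA.biUnion fun z _ => hle _).union
    (hγB.biUnion fun z _ => hle _)))

/-- `X ≡ X 2`. -/
theorem two_left (hL : LMP L) (hα : Function.Injective α)
    (hmid : ∃ c : L, ¬ {s : L | s < c}.Countable ∧ ¬ {s : L | c < s}.Countable) :
    Nonempty ((Fin 2 ×ₗ XX α) ↪o XX α) := by
  obtain ⟨c, hc1, hc2⟩ := hmid
  have hle : ∀ γ : W, {s : L | α s ≤ γ}.Countable := fun γ =>
    (countable_Iic γ).preimage_of_injOn hα.injOn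
  have hmain : ∀ T : Set L, ¬ T.Countable → Nonempty (XX α ↪o {x : XX α | (ofLex x).1 ∈ T}) := by
    intro T hT
    apply pc hL
    intro γ hcount
    apply hT
    refine ((hle γ).union hcount).mono fun s hs => ?_
    by_cases h : α s ≤ γ
    · exact Or.inl h
    · right
      rw [not_le] at h
      have h1 : fib α {x : XX α | (ofLex x).1 ∈ T} s = Set.univ := by
        ext p
        simp only [mem_univ, iff_true]
        exact hs
      change kp γ ≤ Cardinal.mk (fib α {x : XX α | (ofLex x).1 ∈ T} s)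
      rw [h1, Cardinal.mk_univ, mk_Pt]
      exact kp_le_kp.2 h.le
  obtain ⟨e₀⟩ := hmain _ hc1
  obtain ⟨e₁⟩ := hmain _ hc2
  have h01 : ∀ x y : XX α, (e₀ x).1 < (e₁ y).1 := by
    intro x y
    have h1 : (ofLex (e₀ x).1).1 < c := (e₀ x).2
    have h2 : c < (ofLex (e₁ y).1).1 := (e₁ y).2
    exact Sigma.Lex.lt_def.2 (Or.inl (h1.trans h2))
  refine ⟨OrderEmbedding.ofStrictMono (fun z => if (ofLex z).1 = 0 then (e₀ (ofLex z).2).1 else
    (e₁ (ofLex z).2).1) ?_⟩
  rintro ⟨i, x⟩ ⟨j, y⟩ h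
  change (if i = 0 then (e₀ x).1 else (e₁ x).1) < (if j = 0 then (e₀ y).1 else (e₁ y).1)
  cases h with
  | left _ _ h =>
    have hi : i = 0 := by omega
    have hj : j ≠ 0 := by omega
    rw [if_pos hi, if_neg hj]
    exact h01 x y
  | right _ h =>
    by_cases hi : i = 0
    · rw [if_pos hi, if_pos hi]
      exact e₀.strictMono h
    · rw [if_neg hi, if_neg hi]
      exact e₁.strictMono h

/-- `X ≡ 2 X`. -/
theorem two_right (hL : LMP L) (hLu : Uncountable L) (hα : Function.Injective α) :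
    Nonempty ((XX α ×ₗ Fin 2) ↪o XX α) := by
  have hle : ∀ γ : W, {s : L | α s ≤ γ}.Countable := fun γ =>
    (countable_Iic γ).preimage_of_injOn hα.injOn
  obtain ⟨F, hF, hFS⟩ := hL (fun γ => {s : L | γ < α s}) (fun γ γ' h s hs => h.trans_lt hs)
    (fun γ hcount => not_countable_univ (((hle γ).union hcount).mono fun s _ => by
      by_cases h : α s ≤ γ
      · exact Or.inl h
      · exact Or.inr (not_le.1 h))) α
  have hg : ∀ s, Nonempty ((Pt (α s) ×ₗ Fin 2) ↪o Pt (α (F s))) := by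
    intro s
    apply we1
    have h1 : Cardinal.mk (Pt (α s) ×ₗ Fin 2) = kp (α s) := by
      change Cardinal.mk (Pt (α s) × Fin 2) = _
      rw [Cardinal.mk_prod, Cardinal.lift_id, Cardinal.lift_id, mk_Pt, Cardinal.mk_fin]
      exact Cardinal.mul_eq_left (kp_reg _).aleph0_le
        ((Cardinal.natCast_lt_aleph0).le.trans (kp_reg _).aleph0_le) (by norm_num)
    rw [h1]
    exact kp_lt_kp.2 (hFS s)
  let g : ∀ s, (Pt (α s) ×ₗ Fin 2) ↪o Pt (α (F s)) := fun s => (hg s).some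
  refine ⟨OrderEmbedding.ofStrictMono (fun z => toLex ⟨F (ofLex (ofLex z).1).1,
    g (ofLex (ofLex z).1).1 (toLex ((ofLex (ofLex z).1).2, (ofLex z).2))⟩) ?_⟩
  rintro ⟨⟨s, p⟩, i⟩ ⟨⟨s', p'⟩, j⟩ h
  change (toLex ⟨F s, g s (toLex (p, i))⟩ : XX α) < toLex ⟨F s', g s' (toLex (p', j))⟩
  cases h with
  | left _ _ h =>
    cases h with
    | left _ _ h => exact lt_left α _ _ (hF h)
    | right _ _ h =>
      apply lt_right α
      apply (g s).strictMono
      exact Prod.Lex.left _ _ h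
  | right _ h =>
    apply lt_right α
    apply (g s).strictMono
    exact Prod.Lex.right _ h

/-- `X²` does not embed in `X`. -/
theorem no_square (hLu : Uncountable L) (hα : Function.Injective α) :
    IsEmpty ((XX α ×ₗ XX α) ↪o XX α) := by
  refine ⟨fun f => ?_⟩
  have hle : ∀ γ : W, {s : L | α s ≤ γ}.Countable := fun γ =>
    (countable_Iic γ).preimage_of_injOn hα.injOn
  obtain ⟨s₀⟩ : Nonempty L := inferInstance
  have hLW : Cardinal.mk L < kp (α s₀) := (Cardinal.mk_le_of_injective hα).trans_lt (mk_W_lt _)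
  have hne : Nonempty (Pt (α s₀)) := by
    rw [← Cardinal.mk_ne_zero_iff, mk_Pt]
    exact (kp_reg _).pos.ne'
  obtain ⟨p₀⟩ := hne
  let x₀ : XX α := toLex ⟨s₀, p₀⟩
  obtain ⟨u, hu⟩ := pigeon (γ := α s₀)
    (fun p : Pt (α s₀) => (ofLex (f (toLex ((toLex ⟨s₀, p⟩ : XX α), x₀)))).1) (mk_Pt _).ge hLW
  have hinf : ((fun p : Pt (α s₀) => (ofLex (f (toLex ((toLex ⟨s₀, p⟩ : XX α), x₀)))).1) ⁻¹'
      {u}).Infinite := by
    rw [← Set.infinite_coe_iff, Cardinal.infinite_iff]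
    exact (kp_reg _).aleph0_le.trans hu
  obtain ⟨T, hT, hTc⟩ := hinf.exists_subset_card_eq 3
  let e := T.orderEmbOfFin hTc
  have he : ∀ i, (ofLex (f (toLex ((toLex ⟨s₀, e i⟩ : XX α), x₀)))).1 = u := fun i =>
    hT (T.orderEmbOfFin_mem hTc i)
  have h01 : e 0 < e 1 := e.strictMono (by decide)
  have h12 : e 1 < e 2 := e.strictMono (by decide)
  -- the middle copy is contained in the part over `u`
  have hmid : ∀ x : XX α, (ofLex (f (toLex ((toLex ⟨s₀, e 1⟩ : XX α), x)))).1 = u := by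
    intro x
    have h1 : f (toLex ((toLex ⟨s₀, e 0⟩ : XX α), x₀)) < f (toLex ((toLex ⟨s₀, e 1⟩ : XX α), x)) :=
      f.strictMono (Prod.Lex.left _ _ (lt_right α h01))
    have h2 : f (toLex ((toLex ⟨s₀, e 1⟩ : XX α), x)) < f (toLex ((toLex ⟨s₀, e 2⟩ : XX α), x₀)) :=
      f.strictMono (Prod.Lex.left _ _ (lt_right α h12))
    have hmono : ∀ a b : XX α, a < b → (ofLex a).1 ≤ (ofLex b).1 := by
      intro a b hab
      rcases Sigma.Lex.lt_def.1 hab with h | ⟨h, -⟩
      · exact h.le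
      · exact h.le
    apply le_antisymm
    · rw [← he 2]
      exact hmono _ _ h2
    · rw [← he 0]
      exact hmono _ _ h1
  obtain ⟨s, hs⟩ : ∃ s : L, α u < α s := by
    by_contra hc
    push Not at hc
    exact not_countable_univ ((hle (α u)).mono fun s _ => hc s)
  have hq : ∀ p : Pt (α s), ∃ q : Pt (α u),
      f (toLex ((toLex ⟨s₀, e 1⟩ : XX α), (toLex ⟨s, p⟩ : XX α))) = toLex ⟨u, q⟩ := fun p =>
    ex_snd _ (hmid _)
  choose q hq using hq
  have hinj : Function.Injective q := by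
    intro p p' h
    have h1 := (hq p).trans ((by rw [h] : (toLex ⟨u, q p⟩ : XX α) = toLex ⟨u, q p'⟩).trans
      (hq p').symm)
    have h2 := f.injective h1
    have h3 : (toLex ⟨s, p⟩ : XX α) = toLex ⟨s, p'⟩ := congrArg (fun z => (ofLex z).2) h2
    rcases lt_trichotomy p p' with h4 | h4 | h4
    · exact absurd h3 (lt_right α h4).ne
    · exact h4
    · exact absurd h3 (lt_right α h4).ne'
  have h5 := Cardinal.mk_le_of_injective hinj
  rw [mk_Pt, mk_Pt, kp_le_kp] at h5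
  exact absurd hs (not_lt.2 h5)

end Pool.Agent.H635.UT
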